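import Pool.Agent.H33.BP.Loc2

/-!
# Pairs of bounded lag: agreement
-/

namespace H33.BP

variable {A B : Type}

lemma occ_matchL {F : Finset (List A)} {g h : A → List B} {S : ℕ}
    (hag : ∀ z ∈ F, im g z = im h z) {z : List A} (hz : z ∈ F) (k : ℕ) :
    Mt g h (win S z k) (ov g h (z.take k)) :=
  Mt_of_eq (win_split S z k) (hag z hz)

lemma take_win_take {S : ℕ} {x : List A} {i j : ℕ} (hj : j ≤ S) :
    x.take (i + j) = x.take i ++ (win S x i).take j := by
  unfold win
  rw [List.take_take, min_eq_left hj, List.take_add]

lemma OB_win {s S : ℕ} {g h : A → List B} {x : List A} (hb : OB s g h x 0) {i : ℕ}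
    (hi : i + S ≤ x.length) : OB s g h (win S x i) (ov g h (x.take i)) := by
  intro j hj
  rw [win_length hi] at hj
  have h1 := hb (i + j) (by omega)
  have e1 : x.take (i + j) = x.take i ++ (win S x i).take j := take_win_take (by omega)
  have e2 : x.take (i + j + s) = x.take i ++ (win S x i).take (j + s) := by
    rw [← take_win_take (by omega)]
    congr 1
    omega
  rw [e1, e2, ln_append, ln_append, ln_append, ln_append] at h1
  obtain ⟨h2, h3⟩ := h1
  unfold ov
  constructor <;> omega

section main

variable [Fintype A] {S' s : ℕ} {L : Set (List A)} {F : Finset (List A)} {g h : A → List B}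

/-- the central matches -/
lemma centralL (hs : 1 ≤ s) (hS : 10 * s ≤ S') (hFL : ∀ x ∈ F, x ∈ L)
    (hocc : ∀ (Φ : Finset (List.Vector A (S' + 1))) (a : Option (List.Vector A (S' + 1)))
        (b : List.Vector A (S' + 1)) (f : (Option A → ℚ) →ₗ[ℚ] ℚ),
        (∀ x ∈ F, ∀ i j, Occ (S' + 1) L Φ a b x i j → f (vec x i j) = 0) →
        ∀ x i j, Occ (S' + 1) L Φ a b x i j → f (vec x i j) = 0)
    (hag : ∀ z ∈ F, im g z = im h z)
    (hbal : ∀ x ∈ L, OB s g h x 0)
    {x : List A} (hx : x ∈ L) : ∀ i, i + (S' + 1) ≤ x.length →
      CM (2 * s) g h (win (S' + 1) x i) (ov g h (x.take i)) := by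
  intro i
  induction i with
  | zero =>
    intro hi
    obtain ⟨z, hz, k, hk, hw, h0⟩ := cover hocc hx hi
    have hk0 := h0 rfl
    subst hk0
    have h1 := occ_matchL (S := S' + 1) hag hz 0
    rw [hw] at h1
    have e1 : z.take 0 = x.take 0 := by simp
    rw [e1] at h1
    exact CM_of_Mt (by rw [win_length hi]; omega) (OB_win (hbal x hx) hi) h1
  | succ i ih =>
    intro hi
    have hprev := ih (by omega)
    obtain ⟨z, hz, k, hk, hw, -⟩ := cover hocc hx hi
    have m2 := occ_matchL (S := S' + 1) hag hz k
    rw [hw] at m2
    have hzL := hFL z hz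
    by_cases hfl : (⟨win (S' + 1) x (i + 1), win_length hi⟩ : List.Vector A (S' + 1)) ∈
        flex (S' + 1) F g h
    · obtain ⟨z1, hz1, z2, hz2, j1, j2, hj1, hj2, hw1, hw2, hne⟩ := mem_flex.mp hfl
      simp only at hw1 hw2
      have hlt : i < x.length := by omega
      have hlt2 : S' < (x.drop (i + 1)).length := by rw [List.length_drop]; omega
      set K := (x.drop (i + 1)).take S' with hK
      have eprev : win (S' + 1) x i = x[i] :: K := by
        unfold win
        rw [List.drop_eq_getElem_cons hlt, List.take_succ_cons]
      have ecur : win (S' + 1) x (i + 1) = K ++ [(x.drop (i + 1))[S']] := by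
        unfold win
        rw [List.take_succ_eq_append_getElem hlt2]
      have hKlen : K.length = S' := by
        rw [hK, List.length_take, List.length_drop]; omega
      have hδ : ov g h (x.take (i + 1)) = ov g h (x.take i) + ln g [x[i]] - ln h [x[i]] := by
        rw [List.take_succ_eq_append_getElem hlt, ov_append]
        unfold ov; ring
      have bδ := OB_win (hbal x hx) hi
      have be := OB_win (hbal z hzL) hk
      have b1 := OB_win (hbal z1 (hFL z1 hz1)) hj1
      have b2 := OB_win (hbal z2 (hFL z2 hz2)) hj2
      have m3 := occ_matchL (S := S' + 1) hag hz1 j1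
      have m4 := occ_matchL (S := S' + 1) hag hz2 j2
      rw [hw1] at m3 b1
      rw [hw2] at m4 b2
      rw [hw] at be
      rw [ecur] at m2 m3 m4 bδ be b1 b2 ⊢
      rw [eprev] at hprev
      have hK10 : 10 * s ≤ K.length := by rw [hKlen]; exact hS
      rcases lt_or_gt_of_ne hne with hlt' | hlt'
      · exact stepL hs hK10 hδ bδ be b1 b2 hlt' hprev m2 m3 m4
      · exact stepL hs hK10 hδ bδ be b2 b1 hlt' hprev m2 m4 m3
    · have h1 := rigid hocc hx (i + 1) hi _ rfl hfl z hz k hk hw
      rw [h1] at m2
      exact CM_of_Mt (by rw [win_length hi]; omega) (OB_win (hbal x hx) hi) m2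

/-- **Agreement.** -/
theorem agreeL (hs : 1 ≤ s) (hS : 10 * s ≤ S') (hFL : ∀ x ∈ F, x ∈ L)
    (hshort : ∀ x ∈ L, x.length < S' + 1 → x ∈ F)
    (hlen : ∀ x ∈ L, ov g h x = 0)
    (hsuf : ∀ x ∈ L, S' + 1 ≤ x.length → ∃ z ∈ F, S' + 1 ≤ z.length ∧
        z.drop (z.length - (S' + 1)) = x.drop (x.length - (S' + 1)))
    (hocc : ∀ (Φ : Finset (List.Vector A (S' + 1))) (a : Option (List.Vector A (S' + 1)))
        (b : List.Vector A (S' + 1)) (f : (Option A → ℚ) →ₗ[ℚ] ℚ),
        (∀ x ∈ F, ∀ i j, Occ (S' + 1) L Φ a b x i j → f (vec x i j) = 0) →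
        ∀ x i j, Occ (S' + 1) L Φ a b x i j → f (vec x i j) = 0)
    (hag : ∀ z ∈ F, im g z = im h z)
    (hbal : ∀ x ∈ L, OB s g h x 0) :
    ∀ x ∈ L, im g x = im h x := by
  intro x hx
  by_cases hxS : x.length < S' + 1
  · exact hag x (hshort x hx hxS)
  have hcen := centralL hs hS hFL hocc hag hbal hx
  have hb := hbal x hx
  set S := S' + 1 with hSdef
  set m := x.length - S with hm
  have hmS : m + S = x.length := by omega
  have htot : ln g x = ln h x := by
    have h1 := hlen x hx
    unfold ov at h1
    omega
  have hpos : ∀ t : ℤ, 0 ≤ t → t < ln g x → cg (im g x) t = cg (im h x) t := by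
    intro t ht0 ht1
    have eT : x.take (m + S) = x := by rw [hmS, List.take_length]
    have h0g : ln g (x.take 0) = 0 := by simp [ln]
    have h0h : ln h (x.take 0) = 0 := by simp [ln]
    -- the letter at the position
    obtain ⟨q, hq1, hq2, hq3⟩ : ∃ q, q < x.length ∧ ln g (x.take q) ≤ t ∧
        t < ln g (x.take (q + 1)) := by
      rcases last_index (fun i => ln g (x.take i) ≤ t) x.length with h1 | ⟨i, hi, hPi, h1⟩
      · exfalso
        apply h1 0 (by omega)
        show ln g (x.take 0) ≤ t
        omega
      · refine ⟨i, hi, hPi, ?_⟩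
        by_cases hi2 : i + 1 < x.length
        · exact not_le.mp (h1 (i + 1) (by omega) hi2)
        · have : i + 1 = x.length := by omega
          rw [this, List.take_length]
          exact ht1
    by_cases c1 : q + 2 * s < S
    · -- the first window
      have hb1 := (hb (S - 2 * s) (by omega)).2
      have g1 := ln_mono g x (i := q + 1) (j := S - 2 * s) (by omega)
      have g2 := ln_mono g x (i := S - 2 * s) (j := 0 + S) (by omega)
      have g3 := ln_mono h x (i := S - 2 * s + s) (j := 0 + S) (by omega)
      obtain ⟨z, hz, k, hk, hw, h0⟩ := cover hocc hx (i := 0) (by omega)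
      have hk0 := h0 rfl
      subst hk0
      have h1 := occ_matchL (S := S' + 1) hag hz 0
      rw [hw] at h1
      have hov0 : ov g h (z.take 0) = 0 := by simp [ov_nil]
      rw [hov0] at h1
      have c1g : t < ln g (x.take (0 + S)) := by omega
      have c1h : t < ln h (x.take (0 + S)) := by omega
      rw [cg_win (i := 0) (S := S) (by omega) c1g, cg_win (i := 0) (S := S) (by omega) c1h]
      rw [h0g, h0h]
      have e2 := take_win S x 0
      rw [e2, ln_append] at c1g c1h
      have h5 := h1 (t - 0) (by omega) (by omega) (by omega) (by omega)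
      rw [h5]
      congr 1
      ring
    · by_cases c3 : m + 2 * s ≤ q
      · -- the last window
        have hb1 := (hb (m + s) (by omega)).1
        rw [show m + s + s = m + 2 * s by ring] at hb1
        have g1 := ln_mono g x (i := m + 2 * s) (j := q) (by omega)
        have g2 := ln_mono g x (i := m) (j := m + 2 * s) (by omega)
        have g3 := ln_mono h x (i := m) (j := m + s) (by omega)
        obtain ⟨z, hz, hzS, hzd⟩ := hsuf x hx (by omega)
        have hwz : win S z (z.length - S) = win S x m := by
          unfold win
          rw [hm]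
          have e3 : z.drop (z.length - S) = x.drop (x.length - S) := hzd
          rw [e3]
        have h1 := occ_matchL (S := S' + 1) hag hz (z.length - S)
        have h1' : Mt g h (win S z (z.length - S)) (ov g h (z.take (z.length - S))) := h1
        rw [hwz] at h1'
        have hovz : ov g h (z.take (z.length - S)) = ov g h (x.take m) := by
          have h2 := hlen z (hFL z hz)
          have h3 := hlen x hx
          have e4 : z = z.take (z.length - S) ++ win S z (z.length - S) := by
            rw [← take_win]
            rw [show z.length - S + S = z.length by omega, List.take_length]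
          have e5 : x = x.take m ++ win S x m := by
            rw [← take_win, eT]
          rw [e4, ov_append] at h2
          rw [e5, ov_append] at h3
          rw [hwz] at h2
          omega
        rw [hovz] at h1'
        have hg1 : t < ln g (x.take (m + S)) := by rw [eT]; exact ht1
        have hh1 : t < ln h (x.take (m + S)) := by rw [eT]; omega
        have c3g : ln g (x.take m) ≤ t := by omega
        have c3h : ln h (x.take m) ≤ t := by omega
        rw [cg_win (i := m) (S := S) c3g hg1, cg_win (i := m) (S := S) c3h hh1]
        have e2 := take_win S x m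
        rw [e2, ln_append] at hg1 hh1
        have h5 := h1' (t - ln g (x.take m)) (by omega) (by omega) (by unfold ov; omega)
          (by unfold ov; omega)
        rw [h5]
        congr 1
        unfold ov
        ring
      · -- a central window
        obtain ⟨i, hi⟩ : ∃ i, q = i + 2 * s := ⟨q - 2 * s, by omega⟩
        subst hi
        have hiS : i + S ≤ x.length := by omega
        have hc := hcen i hiS
        have t1 : ln g (x.take (i + 2 * s)) = ln g (x.take i) +
            ln g ((win S x i).take (2 * s)) := by
          rw [take_win_take (S := S) (by omega), ln_append]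
        have t2 : ln g (x.take (i + (S - 2 * s))) = ln g (x.take i) +
            ln g ((win S x i).take (S - 2 * s)) := by
          rw [take_win_take (S := S) (by omega), ln_append]
        have g1 := ln_mono g x (i := i + 2 * s + 1) (j := i + (S - 2 * s)) (by omega)
        have hwl : (win (S' + 1) x i).length = S' + 1 := win_length hiS
        have h5 := hc (t - ln g (x.take i)) (by
          have : ln g ((win S x i).take (2 * s)) ≤ t - ln g (x.take i) := by omega
          exact this) (by
          rw [hwl]
          have : t - ln g (x.take i) < ln g ((win S x i).take (S - 2 * s)) := by omega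
          exact this)
        have h5' : cg (im g (win S x i)) (t - ln g (x.take i)) =
            cg (im h (win S x i)) (t - ln g (x.take i) + ov g h (x.take i)) := h5
        have hb1 := (hb (i + s) (by omega)).1
        rw [show i + s + s = i + 2 * s by ring] at hb1
        have hb2 := (hb (i + (S - 2 * s)) (by omega)).2
        have g2 := ln_mono h x (i := i) (j := i + s) (by omega)
        have g3 := ln_mono h x (i := i + (S - 2 * s) + s) (j := i + S) (by omega)
        have g4 := ln_mono g x (i := i + (S - 2 * s)) (j := i + S) (by omega)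
        have g5 := ln_mono g x (i := i) (j := i + 2 * s) (by omega)
        have hg1 : t < ln g (x.take (i + S)) := by omega
        have hh1 : t < ln h (x.take (i + S)) := by omega
        rw [cg_win (i := i) (S := S) (by omega) hg1, cg_win (i := i) (S := S) (by omega) hh1]
        rw [h5']
        congr 1
        unfold ov
        ring
  apply List.ext_getElem?
  intro n
  by_cases hn : (n : ℤ) < ln g x
  · have h1 := hpos n (by omega) hn
    unfold cg at h1
    rw [Int.toNat_natCast] at h1
    exact h1
  · have h2 : ¬ (n : ℤ) < ln h x := by omega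
    unfold ln at hn h2
    rw [List.getElem?_eq_none (by omega), List.getElem?_eq_none (by omega)]

/-- **The list form of the theorem.** -/
theorem list_form (s : ℕ) (hs : 1 ≤ s) (L : Set (List A)) :
    ∃ F : Finset (List A), (∀ x ∈ F, x ∈ L) ∧
      F.card ≤ (Fintype.card A + 1) ^ (10 * s + 1) + Fintype.card A +
        (Fintype.card A) ^ (10 * s + 1) +
        2 ^ ((Fintype.card A) ^ (10 * s + 1)) * ((Fintype.card A) ^ (10 * s + 1) + 1) *
          (Fintype.card A) ^ (10 * s + 1) * (Fintype.card A + 1) ∧
      ∀ (B : Type) (g h : A → List B),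
        ((∀ x ∈ L, ln g x = ln h x) → ∀ x ∈ L, OB s g h x 0) →
        (∀ z ∈ F, im g z = im h z) → ∀ x ∈ L, im g x = im h x := by
  obtain ⟨F, hFL, hFc, h1, h2, h3, h4⟩ := exists_family (10 * s + 1) L
  refine ⟨F, hFL, hFc, ?_⟩
  intro B g h hbal hag
  have hlen : ∀ x ∈ L, ov g h x = 0 := by
    refine h2 B g h (fun x hx => ?_)
    unfold ov ln
    rw [hag x hx]
    ring
  exact agreeL hs le_rfl hFL h1 hlen h3 h4 hag (hbal (fun x hx => by
    have := hlen x hx
    unfold ov at this
    omega))

end main

end H33.BP
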