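import Mathlib

/-!
# Words and periods

Positions in lists are integers.
-/

namespace H33.BP

variable {A B : Type}

/-- the letter at an integer position -/
def cg (l : List B) (t : ℤ) : Option B := l[t.toNat]?

lemma cg_append_left {l1 l2 : List B} {t : ℤ} (h0 : 0 ≤ t) (h1 : t < l1.length) :
    cg (l1 ++ l2) t = cg l1 t := by
  unfold cg
  rw [List.getElem?_append_left]
  omega

lemma cg_append_right {l1 l2 : List B} {t : ℤ} (h1 : (l1.length : ℤ) ≤ t) :
    cg (l1 ++ l2) t = cg l2 (t - l1.length) := by
  unfold cg
  rw [List.getElem?_append_right (by omega)]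
  congr 1
  omega

/-- a period is transferred from a factor -/
lemma transfer {C : Type} (f : ℤ → C) {α β p q y0 : ℤ} (hq : 0 < q) (hp : 0 ≤ p)
    (h1 : ∀ t, α ≤ t → t + q < β → f t = f (t + q)) (ha : α ≤ y0) (hb : y0 + q + p ≤ β)
    (h2 : ∀ y, y0 ≤ y → y < y0 + q → f y = f (y + p)) :
    ∀ t, α ≤ t → t + p < β → f t = f (t + p) := by
  have up : ∀ n : ℕ, ∀ t : ℤ, t = y0 + n → t + p < β → f t = f (t + p) := by
    intro n
    induction n using Nat.strong_induction_on with
    | _ n ih =>
      intro t ht htb
      by_cases hn : (n : ℤ) < q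
      · exact h2 t (by omega) (by omega)
      · have h3 := ih (n - q.toNat) (by omega) (t - q) (by omega) (by omega)
        have h4 := h1 (t - q) (by omega) (by omega)
        have h5 := h1 (t - q + p) (by omega) (by omega)
        have e1 : t - q + q = t := by ring
        have e2 : t - q + p + q = t + p := by ring
        rw [e1] at h4
        rw [e2] at h5
        rw [← h4, h3, h5]
  have down : ∀ n : ℕ, ∀ t : ℤ, (y0 - t).toNat ≤ n → α ≤ t → t + p < β → f t = f (t + p) := by
    intro n
    induction n with
    | zero =>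
      intro t ht _ htb
      exact up (t - y0).toNat t (by omega) htb
    | succ n ih =>
      intro t ht hat htb
      by_cases hty : y0 ≤ t
      · exact up (t - y0).toNat t (by omega) htb
      · have h3 := ih (t + q) (by omega) (by omega) (by omega)
        have h4 := h1 t hat (by omega)
        have h5 := h1 (t + p) (by omega) (by omega)
        have e2 : t + q + p = t + p + q := by ring
        rw [h4, h3, e2, ← h5]
  intro t hat htb
  exact down _ t le_rfl hat htb

/-- the image of a word -/
abbrev im (g : A → List B) (w : List A) : List B := w.flatMap g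

/-- the length of the image of a word -/
def ln (g : A → List B) (w : List A) : ℤ := ((im g w).length : ℤ)

/-- the overflow after a word -/
def ov (g h : A → List B) (w : List A) : ℤ := ln g w - ln h w

lemma ln_nonneg (g : A → List B) (w : List A) : 0 ≤ ln g w := by
  unfold ln; positivity

lemma ln_append (g : A → List B) (u v : List A) : ln g (u ++ v) = ln g u + ln g v := by
  unfold ln im
  rw [List.flatMap_append, List.length_append]
  push_cast
  rfl

lemma ov_append (g h : A → List B) (u v : List A) : ov g h (u ++ v) = ov g h u + ov g h v := by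
  unfold ov
  rw [ln_append, ln_append]
  ring

lemma ov_nil (g h : A → List B) : ov g h [] = 0 := by
  simp [ov, ln]

/-- full match of the two images of `w` with shift `e` -/
def Mt (g h : A → List B) (w : List A) (e : ℤ) : Prop :=
  ∀ τ : ℤ, 0 ≤ τ → τ < ln g w → 0 ≤ τ + e → τ + e < ln h w →
    cg (im g w) τ = cg (im h w) (τ + e)

/-- central match -/
def CMt (D : ℤ) (g h : A → List B) (w : List A) (e : ℤ) : Prop :=
  ∀ τ : ℤ, 2 * D ≤ τ → τ + 2 * D < ln g w → cg (im g w) τ = cg (im h w) (τ + e)

lemma Mt_of_eq {g h : A → List B} {z u w v : List A} (hz : z = u ++ w ++ v)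
    (hgh : im g z = im h z) : Mt g h w (ov g h u) := by
  intro τ h0 h1 h2 h3
  have key : ∀ k : A → List B, ∀ s : ℤ, 0 ≤ s → s < ln k w →
      cg (im k z) (ln k u + s) = cg (im k w) s := by
    intro k s hs0 hs1
    have e1 : im k z = im k u ++ (im k w ++ im k v) := by
      rw [hz]
      unfold im
      rw [List.flatMap_append, List.flatMap_append, List.append_assoc]
    rw [e1, cg_append_right (by unfold ln; omega)]
    have e2 : ln k u + s - ((im k u).length : ℤ) = s := by
      unfold ln; ring
    rw [e2, cg_append_left hs0 (by unfold ln at hs1; exact hs1)]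
  have h4 := key g τ h0 h1
  have h5 := key h (τ + ov g h u) h2 h3
  have e3 : ln h u + (τ + ov g h u) = ln g u + τ := by
    unfold ov; ring
  rw [← h4, ← h5, e3, hgh]

/-- the flexible step -/
lemma step {g h : A → List B} {D : ℤ} {b a : A} {K : List A} {δ' δ e d1 d2 : ℤ}
    (hD : 0 ≤ D)
    (hδ : δ = δ' + ln g [b] - ln h [b])
    (hK : 10 * D ≤ ln h K)
    (b1 : |δ| ≤ D) (b1' : |δ + ln g (K ++ [a]) - ln h (K ++ [a])| ≤ D)
    (bK : |δ + ln g K - ln h K| ≤ D)
    (b2 : |e| ≤ D) (b2' : |e + ln g (K ++ [a]) - ln h (K ++ [a])| ≤ D)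
    (b3 : |d1| ≤ D) (b3' : |d1 + ln g (K ++ [a]) - ln h (K ++ [a])| ≤ D)
    (b4 : |d2| ≤ D) (b4' : |d2 + ln g (K ++ [a]) - ln h (K ++ [a])| ≤ D)
    (hd : d1 < d2)
    (m1 : CMt D g h (b :: K) δ') (m2 : Mt g h (K ++ [a]) e)
    (m3 : Mt g h (K ++ [a]) d1) (m4 : Mt g h (K ++ [a]) d2) :
    CMt D g h (K ++ [a]) δ := by
  rw [abs_le] at b1 b1' bK b2 b2' b3 b3' b4 b4'
  have hga : ln g (K ++ [a]) = ln g K + ln g [a] := ln_append _ _ _
  have hha : ln h (K ++ [a]) = ln h K + ln h [a] := ln_append _ _ _
  have hga0 := ln_nonneg g [a]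
  have hha0 := ln_nonneg h [a]
  have hgb0 := ln_nonneg g [b]
  have hhb0 := ln_nonneg h [b]
  have hgK0 := ln_nonneg g K
  -- the match on `K`
  have mK : ∀ τ : ℤ, 2 * D ≤ τ → τ + 2 * D < ln g K →
      cg (im g (K ++ [a])) τ = cg (im h (K ++ [a])) (τ + δ) := by
    intro τ h0 h1
    have e1 : ∀ k : A → List B, im k (b :: K) = im k [b] ++ im k K := by
      intro k; simp [im]
    have e2 : ∀ k : A → List B, im k (K ++ [a]) = im k K ++ im k [a] := by
      intro k; simp [im]
    have hbK : ln g (b :: K) = ln g [b] + ln g K := ln_append g [b] K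
    have h2 := m1 (τ + ln g [b]) (by omega) (by omega)
    rw [e1 g, e1 h, cg_append_right (by unfold ln; omega),
      cg_append_right (by unfold ln at *; omega)] at h2
    have e3 : τ + ln g [b] - ((im g [b]).length : ℤ) = τ := by unfold ln; ring
    have e4 : τ + ln g [b] + δ' - ((im h [b]).length : ℤ) = τ + δ := by
      rw [hδ]; unfold ln; ring
    rw [e3, e4] at h2
    rw [e2 g, e2 h, cg_append_left (by omega) (by unfold ln at *; omega),
      cg_append_left (by omega) (by unfold ln at *; omega)]
    exact h2
  set V := im h (K ++ [a]) with hV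
  -- period of the flexible window
  have per : ∀ t, D ≤ t → t + (d2 - d1) < ln h (K ++ [a]) - D → cg V t = cg V (t + (d2 - d1)) := by
    intro t h0 h1
    have h2 := m3 (t - d1) (by omega) (by omega) (by omega) (by omega)
    have h3 := m4 (t - d1) (by omega) (by omega) (by omega) (by omega)
    have e1 : t - d1 + d1 = t := by ring
    have e2 : t - d1 + d2 = t + (d2 - d1) := by ring
    rw [e1] at h2
    rw [e2] at h3
    rw [← h2, ← h3]
  -- the other period
  have loc : ∀ y, 3 * D ≤ y → y + 3 * D < ln h K → cg V y = cg V (y + (e - δ)) := by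
    intro y h0 h1
    have h2 := mK (y - δ) (by omega) (by omega)
    have h3 := m2 (y - δ) (by omega) (by omega) (by omega) (by omega)
    have e1 : y - δ + δ = y := by ring
    have e2 : y - δ + e = y + (e - δ) := by ring
    rw [e1] at h2
    rw [e2] at h3
    rw [← h2, ← h3]
  intro τ h0 h1
  have h2 := m2 τ (by omega) (by omega) (by omega) (by omega)
  rw [h2]
  rcases le_total δ e with hle | hle
  · have h3 := transfer (cg V) (α := D) (β := ln h (K ++ [a]) - D) (p := e - δ) (q := d2 - d1)
      (y0 := 3 * D) (by omega) (by omega) per (by omega) (by omega)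
      (fun y hy1 hy2 => loc y hy1 (by omega)) (τ + δ) (by omega) (by omega)
    have e1 : τ + δ + (e - δ) = τ + e := by ring
    rw [e1] at h3
    exact h3.symm
  · have h3 := transfer (cg V) (α := D) (β := ln h (K ++ [a]) - D) (p := δ - e) (q := d2 - d1)
      (y0 := 3 * D) (by omega) (by omega) per (by omega) (by omega)
      (fun y hy1 hy2 => by
        have h4 := loc (y + (δ - e)) (by omega) (by omega)
        have e1 : y + (δ - e) + (e - δ) = y := by ring
        rw [e1] at h4
        exact h4.symm) (τ + e) (by omega) (by omega)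
    have e1 : τ + e + (δ - e) = τ + δ := by ring
    rw [e1] at h3
    exact h3

end H33.BP
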