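import Mathlib

/-!
# Selection of finitely many words by linear algebra
-/

namespace H33.BP

/-- For a family of vectors `V i` with labels `w i` there is a set of at most `dim E` labels such
that a linear functional which vanishes at all vectors with these labels vanishes at all vectors. -/
lemma sel {ι X E : Type} [AddCommGroup E] [Module ℚ E] [FiniteDimensional ℚ E]
    (V : ι → E) (w : ι → X) :
    ∃ F : Finset X, (∀ x ∈ F, ∃ i, w i = x) ∧ F.card ≤ Module.finrank ℚ E ∧
      ∀ f : E →ₗ[ℚ] ℚ, (∀ i, w i ∈ F → f (V i) = 0) → ∀ i, f (V i) = 0 := by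
  classical
  obtain ⟨b, hb1, hb2, hb3⟩ := exists_linearIndependent ℚ (Set.range V)
  have hfin : b.Finite := hb3.setFinite
  haveI : Fintype b := hfin.fintype
  have hcard : Fintype.card b ≤ Module.finrank ℚ E := hb3.fintype_card_le_finrank
  have hch : ∀ v : b, ∃ i, V i = v := fun v => hb1 v.2
  choose c hc using hch
  refine ⟨Finset.univ.image (fun v : b => w (c v)), ?_, ?_, ?_⟩
  · intro x hx
    obtain ⟨v, -, hv⟩ := Finset.mem_image.mp hx
    exact ⟨c v, hv⟩
  · refine Finset.card_image_le.trans ?_
    rw [Finset.card_univ]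
    exact hcard
  · intro f hf i
    have h1 : b ⊆ (LinearMap.ker f : Set E) := by
      intro v hv
      have h2 := hf (c ⟨v, hv⟩) (Finset.mem_image.mpr ⟨⟨v, hv⟩, Finset.mem_univ _, rfl⟩)
      rw [hc] at h2
      exact h2
    have h3 : Submodule.span ℚ (Set.range V) ≤ LinearMap.ker f := by
      rw [← hb2]
      exact Submodule.span_le.mpr h1
    exact h3 (Submodule.subset_span ⟨i, rfl⟩)

/-- the number of words shorter than `S` -/
lemma short_card {A : Type} [Fintype A] (S : ℕ) (L : Set (List A)) :
    ∃ F : Finset (List A), (∀ x, x ∈ F ↔ x ∈ L ∧ x.length < S) ∧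
      F.card ≤ (Fintype.card A + 1) ^ S := by
  classical
  have hinj : Set.InjOn (fun (x : List A) (i : Fin S) => x[(i : ℕ)]?) {x | x.length < S} := by
    intro x hx y hy hxy
    apply List.ext_getElem?
    intro i
    by_cases hi : i < S
    · exact congrFun hxy ⟨i, hi⟩
    · simp only [Set.mem_setOf_eq] at hx hy
      rw [List.getElem?_eq_none (by omega), List.getElem?_eq_none (by omega)]
  have hfin : {x : List A | x ∈ L ∧ x.length < S}.Finite := by
    refine Set.Finite.subset ?_ (fun x hx => hx.2 : {x : List A | x ∈ L ∧ x.length < S} ⊆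
      {x | x.length < S})
    exact Set.Finite.of_finite_image (Set.toFinite _) hinj
  refine ⟨hfin.toFinset, fun x => ?_, ?_⟩
  · rw [Set.Finite.mem_toFinset]; rfl
  · have h1 : hfin.toFinset.card ≤ (Finset.univ : Finset (Fin S → Option A)).card := by
      apply Finset.card_le_card_of_injOn (fun (x : List A) (i : Fin S) => x[(i : ℕ)]?)
      · intro x _; exact Finset.mem_coe.mpr (Finset.mem_univ _)
      · intro x hx y hy hxy
        have hx' := hfin.mem_toFinset.mp (Finset.mem_coe.mp hx)
        have hy' := hfin.mem_toFinset.mp (Finset.mem_coe.mp hy)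
        exact hinj hx'.2 hy'.2 hxy
    refine h1.trans ?_
    rw [Finset.card_univ, Fintype.card_fun, Fintype.card_option, Fintype.card_fin]

end H33.BP
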