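import Pool.Agent.H33.BP.Core
import Pool.Agent.H33.BP.Sel

/-!
# The finite set of words

The words are chosen for every set `Φ` of windows (factors of length `S`).
-/

namespace H33.BP

variable {A B : Type}

/-- the factor of length `S` at the position `i` -/
def win (S : ℕ) (x : List A) (i : ℕ) : List A := (x.drop i).take S

lemma win_length {S : ℕ} {x : List A} {i : ℕ} (h : i + S ≤ x.length) :
    (win S x i).length = S := by
  unfold win
  rw [List.length_take, List.length_drop]
  omega

lemma win_split (S : ℕ) (x : List A) (i : ℕ) :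
    x = x.take i ++ win S x i ++ x.drop (i + S) := by
  unfold win
  rw [List.append_assoc]
  conv_lhs => rw [← List.take_append_drop i x]
  congr 1
  conv_lhs => rw [← List.take_append_drop S (x.drop i)]
  rw [List.drop_drop]

lemma take_win (S : ℕ) (x : List A) (i : ℕ) :
    x.take (i + S) = x.take i ++ win S x i := by
  unfold win
  rw [List.take_add]

/-- The window `b` is at the position `j` of the word `x` of `L`, and between it and the window `a`
at the position `i` (or the beginning of the word) there are only windows from `Φ`. -/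
def Occ (S : ℕ) (L : Set (List A)) (Φ : Finset (List.Vector A S))
    (a : Option (List.Vector A S)) (b : List.Vector A S) (x : List A) (i j : ℕ) : Prop :=
  x ∈ L ∧ j + S ≤ x.length ∧ win S x j = b.1 ∧
    ((a = none ∧ i = 0 ∧ ∀ k, k < j → ∃ c ∈ Φ, win S x k = c.1) ∨
      ∃ w, a = some w ∧ i < j ∧ win S x i = w.1 ∧
        ∀ k, i < k → k < j → ∃ c ∈ Φ, win S x k = c.1)

open Classical in
/-- the vector of an occurrence -/
noncomputable def vec (x : List A) (i j : ℕ) : Option A → ℚ
  | none => 1
  | some c => ((x.take j).count c : ℚ) - ((x.take i).count c : ℚ)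

open Classical in
lemma ln_count [Fintype A] (g : A → List B) (w : List A) :
    (ln g w : ℚ) = ∑ a, ((g a).length : ℚ) * (w.count a : ℚ) := by
  induction w with
  | nil => simp [ln]
  | cons b w ih =>
    have h1 : ln g (b :: w) = ln g [b] + ln g w := ln_append g [b] w
    rw [h1]
    push_cast
    rw [ih]
    have h2 : ∀ a, (((b :: w).count a : ℕ) : ℚ) = (w.count a : ℚ) + (if b = a then 1 else 0) := by
      intro a
      rw [List.count_cons]
      push_cast
      congr 1
      by_cases hba : b = a <;> simp [hba]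
    simp only [h2, mul_add, Finset.sum_add_distrib, mul_ite, mul_one, mul_zero,
      Finset.sum_ite_eq, Finset.mem_univ, if_true]
    rw [add_comm]
    congr 1
    simp [ln]

open Classical in
lemma ov_count [Fintype A] (g h : A → List B) (w : List A) :
    (ov g h w : ℚ) = ∑ a, (((g a).length : ℚ) - ((h a).length : ℚ)) * (w.count a : ℚ) := by
  unfold ov
  push_cast
  rw [ln_count, ln_count, ← Finset.sum_sub_distrib]
  exact Finset.sum_congr rfl (fun a _ => by ring)

/-- the functional of a pair -/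
noncomputable def fn [Fintype A] (g h : A → List B) (c0 : ℚ) : (Option A → ℚ) →ₗ[ℚ] ℚ :=
  (∑ a : A, (((g a).length : ℚ) - ((h a).length : ℚ)) •
    (LinearMap.proj (some a) : (Option A → ℚ) →ₗ[ℚ] ℚ)) -
    c0 • (LinearMap.proj none : (Option A → ℚ) →ₗ[ℚ] ℚ)

lemma fn_vec [Fintype A] (g h : A → List B) (c0 : ℚ) (x : List A) (i j : ℕ) :
    fn g h c0 (vec x i j) = (ov g h (x.take j) : ℚ) - (ov g h (x.take i) : ℚ) - c0 := by
  classical
  unfold fn
  rw [ov_count, ov_count, ← Finset.sum_sub_distrib]
  simp only [LinearMap.sub_apply, LinearMap.sum_apply, LinearMap.smul_apply,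
    LinearMap.proj_apply, smul_eq_mul, vec, mul_one]
  congr 1
  refine Finset.sum_congr rfl (fun a _ => ?_)
  rw [← mul_sub]

/-- **The finite set.** -/
theorem exists_family [Fintype A] (S : ℕ) (L : Set (List A)) :
    ∃ F : Finset (List A), (∀ x ∈ F, x ∈ L) ∧
      F.card ≤ (Fintype.card A + 1) ^ S + Fintype.card A + (Fintype.card A) ^ S +
        2 ^ ((Fintype.card A) ^ S) * ((Fintype.card A) ^ S + 1) * (Fintype.card A) ^ S *
          (Fintype.card A + 1) ∧
      (∀ x ∈ L, x.length < S → x ∈ F) ∧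
      (∀ (B : Type) (g h : A → List B), (∀ x ∈ F, ov g h x = 0) → ∀ x ∈ L, ov g h x = 0) ∧
      (∀ x ∈ L, S ≤ x.length → ∃ z ∈ F, S ≤ z.length ∧
        z.drop (z.length - S) = x.drop (x.length - S)) ∧
      (∀ (Φ : Finset (List.Vector A S)) (a : Option (List.Vector A S)) (b : List.Vector A S)
        (f : (Option A → ℚ) →ₗ[ℚ] ℚ),
        (∀ x ∈ F, ∀ i j, Occ S L Φ a b x i j → f (vec x i j) = 0) →
        ∀ x i j, Occ S L Φ a b x i j → f (vec x i j) = 0) := by
  classical
  -- short words
  obtain ⟨F1, hF1, hF1c⟩ := short_card S L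
  -- the Parikh vectors
  obtain ⟨F2, hF2a, hF2c, hF2⟩ := sel (E := A → ℚ)
    (fun x : L => fun a => ((x.1.count a : ℕ) : ℚ)) (fun x : L => x.1)
  -- suffixes
  have h3 : ∀ b : List.Vector A S, ∃ F : Finset (List A), (∀ z ∈ F, z ∈ L ∧ S ≤ z.length ∧
      z.drop (z.length - S) = b.1) ∧ F.card ≤ 1 ∧
      ∀ x ∈ L, S ≤ x.length → x.drop (x.length - S) = b.1 → ∃ z ∈ F, True := by
    intro b
    by_cases hb : ∃ x ∈ L, S ≤ x.length ∧ x.drop (x.length - S) = b.1
    · obtain ⟨x, hx, hxS, hxb⟩ := hb
      refine ⟨{x}, ?_, by simp, ?_⟩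
      · intro z hz
        rw [Finset.mem_singleton.mp hz]
        exact ⟨hx, hxS, hxb⟩
      · intro y _ _ _
        exact ⟨x, Finset.mem_singleton_self x, trivial⟩
    · refine ⟨∅, by simp, by simp, ?_⟩
      intro x hx hxS hxb
      exact absurd ⟨x, hx, hxS, hxb⟩ hb
  choose F3 hF3a hF3c hF3 using h3
  -- occurrences
  have h4 : ∀ (Φ : Finset (List.Vector A S)) (a : Option (List.Vector A S))
      (b : List.Vector A S), ∃ F : Finset (List A), (∀ x ∈ F, x ∈ L) ∧
      F.card ≤ Fintype.card A + 1 ∧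
      ∀ f : (Option A → ℚ) →ₗ[ℚ] ℚ,
        (∀ x ∈ F, ∀ i j, Occ S L Φ a b x i j → f (vec x i j) = 0) →
        ∀ x i j, Occ S L Φ a b x i j → f (vec x i j) = 0 := by
    intro Φ a b
    obtain ⟨F, hFa, hFc, hF⟩ := sel (E := Option A → ℚ)
      (fun o : {o : List A × ℕ × ℕ // Occ S L Φ a b o.1 o.2.1 o.2.2} =>
        vec o.1.1 o.1.2.1 o.1.2.2)
      (fun o => o.1.1)
    refine ⟨F, ?_, ?_, ?_⟩
    · intro x hx
      obtain ⟨o, ho⟩ := hFa x hx
      rw [← ho]
      exact o.2.1
    · refine hFc.trans ?_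
      rw [Module.finrank_fintype_fun_eq_card, Fintype.card_option]
    · intro f hf x i j hocc
      exact hF f (fun o ho => hf _ ho _ _ o.2) ⟨(x, i, j), hocc⟩
  choose F4 hF4a hF4c hF4 using h4
  have hcv : Fintype.card (List.Vector A S) = Fintype.card A ^ S := card_vector S
  refine ⟨F1 ∪ F2 ∪ Finset.univ.biUnion F3 ∪
    (Finset.univ : Finset (Finset (List.Vector A S) × Option (List.Vector A S) ×
      List.Vector A S)).biUnion (fun o => F4 o.1 o.2.1 o.2.2), ?_, ?_, ?_, ?_, ?_, ?_⟩
  · intro x hx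
    simp only [Finset.mem_union, Finset.mem_biUnion, Finset.mem_univ, true_and] at hx
    rcases hx with ((hx | hx) | ⟨b, hx⟩) | ⟨o, hx⟩
    · exact ((hF1 x).mp hx).1
    · obtain ⟨i, hi⟩ := hF2a x hx
      rw [← hi]
      exact i.2
    · exact (hF3a b x hx).1
    · exact hF4a _ _ _ x hx
  · refine (Finset.card_union_le _ _).trans ?_
    refine Nat.add_le_add ?_ ?_
    · refine (Finset.card_union_le _ _).trans ?_
      refine Nat.add_le_add ((Finset.card_union_le _ _).trans (Nat.add_le_add hF1c ?_)) ?_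
      · refine hF2c.trans ?_
        rw [Module.finrank_fintype_fun_eq_card]
      · refine Finset.card_biUnion_le.trans ((Finset.sum_le_card_nsmul _ _ 1
          (fun b _ => hF3c b)).trans ?_)
        rw [smul_eq_mul, mul_one, Finset.card_univ, hcv]
    · refine Finset.card_biUnion_le.trans ((Finset.sum_le_card_nsmul _ _ _
          (fun o _ => hF4c _ _ _)).trans ?_)
      rw [smul_eq_mul, Finset.card_univ, Fintype.card_prod, Fintype.card_prod,
        Fintype.card_finset, Fintype.card_option, hcv]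
      apply le_of_eq
      ring
  · intro x hx hxS
    simp only [Finset.mem_union]
    exact Or.inl (Or.inl (Or.inl ((hF1 x).mpr ⟨hx, hxS⟩)))
  · intro B g h hF x hx
    have h5 := hF2 (∑ a : A, (((g a).length : ℚ) - ((h a).length : ℚ)) •
      (LinearMap.proj a : (A → ℚ) →ₗ[ℚ] ℚ)) ?_ ⟨x, hx⟩
    · have h6 : (ov g h x : ℚ) = 0 := by
        rw [ov_count, ← h5]
        simp [LinearMap.sum_apply]
      exact_mod_cast h6
    · intro i hi
      have h6 := hF i.1 (by
        simp only [Finset.mem_union]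
        exact Or.inl (Or.inl (Or.inr hi)))
      have h7 : (ov g h i.1 : ℚ) = 0 := by exact_mod_cast h6
      rw [ov_count] at h7
      rw [← h7]
      simp [LinearMap.sum_apply]
  · intro x hx hxS
    have hlen : (x.drop (x.length - S)).length = S := by
      rw [List.length_drop]; omega
    obtain ⟨z, hz, -⟩ := hF3 ⟨x.drop (x.length - S), hlen⟩ x hx hxS rfl
    obtain ⟨-, hz2, hz3⟩ := hF3a _ z hz
    refine ⟨z, ?_, hz2, hz3⟩
    simp only [Finset.mem_union, Finset.mem_biUnion, Finset.mem_univ, true_and]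
    exact Or.inl (Or.inr ⟨_, hz⟩)
  · intro Φ a b f hf x i j hocc
    refine hF4 Φ a b f (fun y hy => hf y ?_) x i j hocc
    simp only [Finset.mem_union, Finset.mem_biUnion, Finset.mem_univ, true_and]
    exact Or.inr ⟨(Φ, a, b), hy⟩

end H33.BP
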