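import Pool.Agent.H33.BP.Main

/-!
# Pairs of bounded lag: the matches of the windows
-/

namespace H33.BP

variable {A B : Type}

/-- the lag is at most `s`: if the image under `g` begins at the place `e` of the image under `h`,
then each image of a prefix ends before the other image of the prefix with `s` more letters -/
def OB (s : ℕ) (g h : A → List B) (x : List A) (e : ℤ) : Prop :=
  ∀ j, j + s ≤ x.length →
    ln h (x.take j) ≤ e + ln g (x.take (j + s)) ∧ e + ln g (x.take j) ≤ ln h (x.take (j + s))

lemma ln_mono (k : A → List B) (x : List A) {i j : ℕ} (hij : i ≤ j) :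
    ln k (x.take i) ≤ ln k (x.take j) := by
  have e1 : x.take j = x.take i ++ (x.drop i).take (j - i) := by
    rw [← List.take_add]
    congr 1
    omega
  rw [e1, ln_append]
  have := ln_nonneg k ((x.drop i).take (j - i))
  omega

/-- the central match of a window: the first and the last `m` letters are left out -/
def CM (m : ℕ) (g h : A → List B) (w : List A) (e : ℤ) : Prop :=
  ∀ τ : ℤ, ln g (w.take m) ≤ τ → τ < ln g (w.take (w.length - m)) →
    cg (im g w) τ = cg (im h w) (τ + e)

lemma CM_of_Mt {s : ℕ} {g h : A → List B} {e : ℤ} {w : List A} (hw : 3 * s ≤ w.length)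
    (b : OB s g h w e) (hm : Mt g h w e) : CM (2 * s) g h w e := by
  intro τ h0 h1
  have b1 := (b s (by omega)).1
  have b2 := (b (w.length - 2 * s) (by omega)).2
  have e1 : s + s = 2 * s := by ring
  rw [e1] at b1
  have h2 := ln_mono g w (i := 0) (j := 2 * s) (by omega)
  have h3 := ln_mono g w (i := w.length - 2 * s) (j := w.length) (by omega)
  have h4 := ln_mono h w (i := 0) (j := s) (by omega)
  have h5 := ln_mono h w (i := w.length - 2 * s + s) (j := w.length) (by omega)
  rw [List.take_length] at h3 h5
  have h6 := ln_nonneg g (w.take 0)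
  have h7 := ln_nonneg h (w.take 0)
  exact hm τ (by omega) (by omega) (by omega) (by omega)

/-- the flexible step -/
lemma stepL {s : ℕ} {g h : A → List B} {b a : A} {K : List A} {δ' δ e d1 d2 : ℤ}
    (hs : 1 ≤ s) (hK : 10 * s ≤ K.length)
    (hδ : δ = δ' + ln g [b] - ln h [b])
    (bδ : OB s g h (K ++ [a]) δ) (be : OB s g h (K ++ [a]) e)
    (bd1 : OB s g h (K ++ [a]) d1) (bd2 : OB s g h (K ++ [a]) d2)
    (hd : d1 < d2)
    (m1 : CM (2 * s) g h (b :: K) δ') (m2 : Mt g h (K ++ [a]) e)
    (m3 : Mt g h (K ++ [a]) d1) (m4 : Mt g h (K ++ [a]) d2) :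
    CM (2 * s) g h (K ++ [a]) δ := by
  set w := K ++ [a] with hw
  have hwl : w.length = K.length + 1 := by rw [hw]; simp
  have htk : ∀ j, j ≤ K.length → w.take j = K.take j := by
    intro j hj
    rw [hw, List.take_append_of_le_length hj]
  have hgw : ln g w = ln g (w.take w.length) := by rw [List.take_length]
  have hhw : ln h w = ln h (w.take w.length) := by rw [List.take_length]
  -- the match on `K`
  have mK : ∀ τ : ℤ, ln g (w.take (2 * s)) ≤ τ → τ < ln g (w.take (K.length - 2 * s)) →
      cg (im g w) τ = cg (im h w) (τ + δ) := by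
    intro τ h0 h1
    have e1 : ∀ k : A → List B, im k (b :: K) = im k [b] ++ im k K := by
      intro k; simp [im]
    have e2 : ∀ k : A → List B, im k w = im k K ++ im k [a] := by
      intro k; rw [hw]; simp [im]
    have hlen : (b :: K).length - 2 * s = (K.length - 2 * s) + 1 := by
      rw [List.length_cons]; omega
    have t1 : (b :: K).take (2 * s) = b :: K.take (2 * s - 1) := by
      have : 2 * s = (2 * s - 1) + 1 := by omega
      conv_lhs => rw [this]
      rw [List.take_succ_cons]
    have t2 : (b :: K).take ((b :: K).length - 2 * s) = b :: K.take (K.length - 2 * s) := by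
      rw [hlen, List.take_succ_cons]
    have l1 : ln g (b :: K.take (2 * s - 1)) = ln g [b] + ln g (K.take (2 * s - 1)) :=
      ln_append g [b] _
    have l2 : ln g (b :: K.take (K.length - 2 * s)) = ln g [b] + ln g (K.take (K.length - 2 * s)) :=
      ln_append g [b] _
    have hm1 := ln_mono g K (i := 2 * s - 1) (j := 2 * s) (by omega)
    have hm2 := ln_mono g K (i := K.length - 2 * s) (j := K.length) (by omega)
    rw [List.take_length] at hm2
    have k1 := htk (2 * s) (by omega)
    have k2 := htk (K.length - 2 * s) (by omega)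
    have k3 := htk s (by omega)
    have k4 := htk (K.length - 2 * s + s) (by omega)
    have b1 := (bδ s (by omega)).1
    have b2 := (bδ (K.length - 2 * s) (by omega)).2
    have e5 : s + s = 2 * s := by ring
    rw [e5] at b1
    rw [k1, k3] at b1
    rw [k2, k4] at b2
    rw [k1] at h0
    rw [k2] at h1
    have hm3 := ln_mono h K (i := 0) (j := s) (by omega)
    have hm4 := ln_mono h K (i := K.length - 2 * s + s) (j := K.length) (by omega)
    rw [List.take_length] at hm4
    have hn0 := ln_nonneg h (K.take 0)
    have hn1 := ln_nonneg g (K.take (2 * s))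
    have hn2 := ln_nonneg g [b]
    have h2 := m1 (τ + ln g [b]) (by rw [t1, l1]; omega) (by rw [t2, l2]; omega)
    rw [e1 g, e1 h, cg_append_right (by unfold ln at *; omega),
      cg_append_right (by unfold ln at *; omega)] at h2
    have e3 : τ + ln g [b] - ((im g [b]).length : ℤ) = τ := by unfold ln; ring
    have e4 : τ + ln g [b] + δ' - ((im h [b]).length : ℤ) = τ + δ := by
      rw [hδ]; unfold ln; ring
    rw [e3, e4] at h2
    rw [e2 g, e2 h, cg_append_left (by omega) (by unfold ln at *; omega),
      cg_append_left (by omega) (by unfold ln at *; omega)]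
    exact h2
  -- the values of the lengths
  set H : ℕ → ℤ := fun j => ln h (w.take j) with hH
  set G : ℕ → ℤ := fun j => ln g (w.take j) with hG
  have Hm : ∀ i j, i ≤ j → H i ≤ H j := fun i j hij => ln_mono h w hij
  have Gm : ∀ i j, i ≤ j → G i ≤ G j := fun i j hij => ln_mono g w hij
  have H0 : 0 ≤ H 0 := ln_nonneg h _
  have G0 : 0 ≤ G 0 := ln_nonneg g _
  have conv : ∀ ε, OB s g h w ε → ∀ j, j + s ≤ K.length + 1 →
      H j ≤ ε + G (j + s) ∧ ε + G j ≤ H (j + s) := by
    intro ε hε j hj
    exact hε j (by omega)
  have cδ := conv δ bδ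
  have ce := conv e be
  have c1 := conv d1 bd1
  have c2 := conv d2 bd2
  have hLw : w.length = K.length + 1 := hwl
  have hgw' : ln g w = G (K.length + 1) := by rw [hgw, hLw]
  have hhw' : ln h w = H (K.length + 1) := by rw [hhw, hLw]
  set V := im h w with hV
  -- period of the flexible window
  have per : ∀ t, H s ≤ t → t + (d2 - d1) < H (K.length + 1 - s) →
      cg V t = cg V (t + (d2 - d1)) := by
    intro t h0 h1
    have b1 := c1 0 (by omega)
    have b2 := c1 (K.length + 1 - s) (by omega)
    rw [Nat.zero_add] at b1
    rw [show K.length + 1 - s + s = K.length + 1 by omega] at b2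
    have mm := Hm (K.length + 1 - s) (K.length + 1) (by omega)
    have mm0 := Hm 0 s (by omega)
    have hG00 : G 0 = 0 := by rw [hG]; simp [ln]
    have hH00 : H 0 = 0 := by rw [hH]; simp [ln]
    have h2 := m3 (t - d1) (by omega) (by omega) (by omega) (by omega)
    have h3 := m4 (t - d1) (by omega) (by omega) (by omega) (by omega)
    have e1 : t - d1 + d1 = t := by ring
    have e2 : t - d1 + d2 = t + (d2 - d1) := by ring
    rw [e1] at h2
    rw [e2] at h3
    rw [← h2, ← h3]
  -- the other period
  have loc : ∀ y, H (2 * s + s) ≤ y → y < H (K.length - 2 * s - s) →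
      cg V y = cg V (y + (e - δ)) := by
    intro y h0 h1
    have b1 := cδ (2 * s) (by omega)
    have b2 := cδ (K.length - 2 * s - s) (by omega)
    rw [show K.length - 2 * s - s + s = K.length - 2 * s by omega] at b2
    have b3 := ce s (by omega)
    rw [show s + s = 2 * s by ring] at b3
    have b4 := ce (K.length - 2 * s) (by omega)
    have mm0 := Hm 0 s (by omega)
    have mm1 := Hm (K.length - 2 * s + s) (K.length + 1) (by omega)
    have mm2 := Gm (K.length - 2 * s) (K.length + 1) (by omega)
    have mm3 := Gm 0 (2 * s) (by omega)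
    have h2 := mK (y - δ) (by show G (2 * s) ≤ y - δ; omega)
      (by show y - δ < G (K.length - 2 * s); omega)
    have h3 := m2 (y - δ) (by omega) (by omega) (by omega) (by omega)
    have e1 : y - δ + δ = y := by ring
    have e2 : y - δ + e = y + (e - δ) := by ring
    rw [e1] at h2
    rw [e2] at h3
    rw [← h2, ← h3]
  -- the sizes of the periods
  have hq : H (3 * s) + (d2 - d1) ≤ H (5 * s) := by
    have b1 := c1 (3 * s) (by omega)
    have b2 := c2 (3 * s) (by omega)
    have b3 := c1 (4 * s) (by omega)
    have b4 := c2 (4 * s) (by omega)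
    rw [show 3 * s + s = 4 * s by ring] at b1 b2
    rw [show 4 * s + s = 5 * s by ring] at b3 b4
    omega
  have hp1 : H (5 * s) + (e - δ) ≤ H (7 * s) := by
    have b1 := cδ (5 * s) (by omega)
    have b2 := ce (5 * s) (by omega)
    have b3 := cδ (6 * s) (by omega)
    have b4 := ce (6 * s) (by omega)
    rw [show 5 * s + s = 6 * s by ring] at b1 b2
    rw [show 6 * s + s = 7 * s by ring] at b3 b4
    omega
  have hp2 : H (5 * s) + (δ - e) ≤ H (7 * s) := by
    have b1 := cδ (5 * s) (by omega)
    have b2 := ce (5 * s) (by omega)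
    have b3 := cδ (6 * s) (by omega)
    have b4 := ce (6 * s) (by omega)
    rw [show 5 * s + s = 6 * s by ring] at b1 b2
    rw [show 6 * s + s = 7 * s by ring] at b3 b4
    omega
  have o1 := Hm s (3 * s) (by omega)
  have o2 := Hm (7 * s) (K.length - 2 * s - s) (by omega)
  have o3 := Hm (7 * s) (K.length + 1 - s) (by omega)
  have o4 := Hm (5 * s) (7 * s) (by omega)
  rw [show 2 * s + s = 3 * s by ring] at loc
  -- the new position
  intro τ h0 h1
  rw [hLw] at h1
  have h0' : G (2 * s) ≤ τ := h0
  have h1' : τ < G (K.length + 1 - 2 * s) := h1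
  have b1 := cδ s (by omega)
  have b2 := cδ (K.length + 1 - 2 * s) (by omega)
  have b3 := ce s (by omega)
  have b4 := ce (K.length + 1 - 2 * s) (by omega)
  rw [show s + s = 2 * s by ring] at b1 b3
  rw [show K.length + 1 - 2 * s + s = K.length + 1 - s by omega] at b2 b4
  have mm0 := Gm 0 (2 * s) (by omega)
  have mm1 := Gm (K.length + 1 - 2 * s) (K.length + 1) (by omega)
  have mm2 := Hm (K.length + 1 - s) (K.length + 1) (by omega)
  have mm3 := Hm 0 s (by omega)
  have h2 := m2 τ (by omega) (by omega) (by omega) (by omega)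
  rw [h2]
  rcases le_total δ e with hle | hle
  · have h3 := transfer (cg V) (α := H s) (β := H (K.length + 1 - s)) (p := e - δ) (q := d2 - d1)
      (y0 := H (3 * s)) (by omega) (by omega) per (by omega) (by omega)
      (fun y hy1 hy2 => loc y hy1 (by omega)) (τ + δ) (by omega) (by omega)
    have e1 : τ + δ + (e - δ) = τ + e := by ring
    rw [e1] at h3
    exact h3.symm
  · have h3 := transfer (cg V) (α := H s) (β := H (K.length + 1 - s)) (p := δ - e) (q := d2 - d1)
      (y0 := H (3 * s)) (by omega) (by omega) per (by omega) (by omega)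
      (fun y hy1 hy2 => by
        have h4 := loc (y + (δ - e)) (by omega) (by omega)
        have e1 : y + (δ - e) + (e - δ) = y := by ring
        rw [e1] at h4
        exact h4.symm) (τ + e) (by omega) (by omega)
    have e1 : τ + e + (δ - e) = τ + δ := by ring
    rw [e1] at h3
    exact h3

end H33.BP
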