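import Pool.Agent.H33.BP.Fam

/-!
# Agreement on the finite set implies agreement on the language
-/

namespace H33.BP

variable {A B : Type}

/-- the last index before `j` with a property -/
lemma last_index (P : ℕ → Prop) : ∀ j : ℕ, (∀ k, k < j → ¬ P k) ∨
    ∃ i, i < j ∧ P i ∧ ∀ k, i < k → k < j → ¬ P k := by
  intro j
  induction j with
  | zero => left; intro k hk; omega
  | succ j ih =>
    by_cases hj : P j
    · right
      exact ⟨j, by omega, hj, fun k h1 h2 => by omega⟩
    · rcases ih with h | ⟨i, hi, hPi, hk⟩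
      · left
        intro k hk
        rcases Nat.lt_succ_iff_lt_or_eq.mp hk with h1 | h1
        · exact h k h1
        · rw [h1]; exact hj
      · right
        refine ⟨i, by omega, hPi, fun k h1 h2 => ?_⟩
        rcases Nat.lt_succ_iff_lt_or_eq.mp h2 with h3 | h3
        · exact hk k h1 h3
        · rw [h3]; exact hj

/-- many blocks -/
lemma blocks {g h : A → List B} {D : ℤ} {s : ℕ} (m : ℕ) : ∀ (K : List A),
    (∀ w, w <:+: K → w.length = s → D ≤ ln g w + ln h w) → m * s ≤ K.length →
    m * D ≤ ln g K + ln h K := by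
  induction m with
  | zero =>
    intro K _ _
    have h1 := ln_nonneg g K
    have h2 := ln_nonneg h K
    push_cast
    omega
  | succ m ih =>
    intro K hK hlen
    have hs : s ≤ K.length := by
      refine le_trans ?_ hlen
      nlinarith
    have h1 := hK (K.take s) (List.take_prefix s K).isInfix (by rw [List.length_take]; omega)
    have h2 := ih (K.drop s) (fun w hw => hK w (hw.trans (List.drop_suffix s K).isInfix)) (by
      rw [List.length_drop]
      have : (m + 1) * s = m * s + s := by ring
      omega)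
    have h3 : ∀ k : A → List B, ln k K = ln k (K.take s) + ln k (K.drop s) := by
      intro k
      rw [← ln_append, List.take_append_drop]
    rw [h3 g, h3 h]
    push_cast
    linarith

/-- the positions of a window inside the image of a word -/
lemma cg_win {k : A → List B} {x : List A} {i S : ℕ} {t : ℤ}
    (h0 : ln k (x.take i) ≤ t) (h1 : t < ln k (x.take (i + S))) :
    cg (im k x) t = cg (im k (win S x i)) (t - ln k (x.take i)) := by
  have e1 : im k x = im k (x.take i) ++ (im k (win S x i) ++ im k (x.drop (i + S))) := by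
    conv_lhs => rw [win_split S x i]
    unfold im
    rw [List.flatMap_append, List.flatMap_append, List.append_assoc]
  have h2 := take_win S x i
  rw [h2, ln_append] at h1
  have h3 := ln_nonneg k (x.take i)
  rw [e1, cg_append_right (by unfold ln at h0; omega)]
  rw [show t - ((im k (x.take i)).length : ℤ) = t - ln k (x.take i) from rfl]
  rw [cg_append_left (by omega) (by unfold ln at *; omega)]

section main

variable [Fintype A] {S' s : ℕ} {L : Set (List A)} {F : Finset (List A)} {g h : A → List B}
  {D : ℤ}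

open Classical in
/-- the flexible windows -/
noncomputable def flex (S : ℕ) (F : Finset (List A)) (g h : A → List B) :
    Finset (List.Vector A S) :=
  Finset.univ.filter (fun w => ∃ z1 ∈ F, ∃ z2 ∈ F, ∃ j1 j2, j1 + S ≤ z1.length ∧
    j2 + S ≤ z2.length ∧ win S z1 j1 = w.1 ∧ win S z2 j2 = w.1 ∧
    ov g h (z1.take j1) ≠ ov g h (z2.take j2))

open Classical in
lemma mem_flex {S : ℕ} {w : List.Vector A S} : w ∈ flex S F g h ↔
    ∃ z1 ∈ F, ∃ z2 ∈ F, ∃ j1 j2, j1 + S ≤ z1.length ∧
    j2 + S ≤ z2.length ∧ win S z1 j1 = w.1 ∧ win S z2 j2 = w.1 ∧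
    ov g h (z1.take j1) ≠ ov g h (z2.take j2) := by
  unfold flex
  rw [Finset.mem_filter]
  simp only [Finset.mem_univ, true_and]

/-- a window which is not flexible has the same overflow everywhere -/
lemma rigid {S : ℕ}
    (hocc : ∀ (Φ : Finset (List.Vector A S)) (a : Option (List.Vector A S))
        (b : List.Vector A S) (f : (Option A → ℚ) →ₗ[ℚ] ℚ),
        (∀ x ∈ F, ∀ i j, Occ S L Φ a b x i j → f (vec x i j) = 0) →
        ∀ x i j, Occ S L Φ a b x i j → f (vec x i j) = 0)
    {x : List A} (hx : x ∈ L) : ∀ (j : ℕ), j + S ≤ x.length →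
      ∀ b : List.Vector A S, win S x j = b.1 → b ∉ flex S F g h →
      ∀ z ∈ F, ∀ k, k + S ≤ z.length → win S z k = b.1 →
      ov g h (z.take k) = ov g h (x.take j) := by
  intro j
  induction j using Nat.strong_induction_on with
  | _ j ih =>
    intro hj b hb hbr z hz k hk hzk
    have hbF : ∀ z' ∈ F, ∀ j', j' + S ≤ z'.length → win S z' j' = b.1 →
        ov g h (z'.take j') = ov g h (z.take k) := by
      intro z' hz' j' hj' hw
      by_contra hne
      apply hbr
      rw [mem_flex]
      exact ⟨z', hz', z, hz, j', k, hj', hk, hw, hzk, hne⟩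
    have conv : ∀ k', k' + S ≤ x.length →
        ¬ (∃ c, c ∉ flex S F g h ∧ win S x k' = c.1) → ∃ c ∈ flex S F g h, win S x k' = c.1 := by
      intro k' hk' hno
      refine ⟨⟨win S x k', win_length hk'⟩, ?_, rfl⟩
      by_contra hc
      exact hno ⟨_, hc, rfl⟩
    rcases last_index (fun i => ∃ c, c ∉ flex S F g h ∧ win S x i = c.1) j with h1 | ⟨i, hi, hPi, h1⟩
    · have ho : Occ S L (flex S F g h) none b x 0 j :=
        ⟨hx, hj, hb, Or.inl ⟨rfl, rfl, fun k' hk' => conv k' (by omega) (h1 k' hk')⟩⟩
      have h2 := hocc (flex S F g h) none b (fn g h (ov g h (z.take k) : ℚ)) (by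
        intro z' hz' i' j' ho'
        rw [fn_vec]
        obtain ⟨-, hj', hw', h3⟩ := ho'
        rcases h3 with ⟨-, hi0, -⟩ | ⟨w, hw, -⟩
        · rw [hi0, hbF z' hz' j' hj' hw']
          simp [ov_nil]
        · exact absurd hw (by simp)) x 0 j ho
      rw [fn_vec, List.take_zero, ov_nil] at h2
      have h3 : (ov g h (x.take j) : ℚ) = (ov g h (z.take k) : ℚ) := by
        push_cast at h2
        linarith
      exact_mod_cast h3.symm
    · obtain ⟨w, hw, hiw⟩ := hPi
      have ho : Occ S L (flex S F g h) (some w) b x i j :=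
        ⟨hx, hj, hb, Or.inr ⟨w, rfl, hi, hiw,
          fun k' hk1 hk2 => conv k' (by omega) (h1 k' hk1 hk2)⟩⟩
      have h2 := hocc (flex S F g h) (some w) b
        (fn g h ((ov g h (z.take k) : ℚ) - (ov g h (x.take i) : ℚ))) (by
        intro z' hz' i' j' ho'
        rw [fn_vec]
        obtain ⟨-, hj', hw', h3⟩ := ho'
        rcases h3 with ⟨h4, -⟩ | ⟨w', hw1, hij, hwi, -⟩
        · exact absurd h4 (by simp)
        · have hww : w' = w := (Option.some.inj hw1).symm
          rw [hww] at hwi
          rw [hbF z' hz' j' hj' hw', ih i hi (by omega) w hiw hw z' hz' i' (by omega) hwi]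
          ring) x i j ho
      rw [fn_vec] at h2
      have h3 : (ov g h (x.take j) : ℚ) = (ov g h (z.take k) : ℚ) := by linarith
      exact_mod_cast h3.symm

/-- every window occurs in the finite set -/
lemma cover {S : ℕ}
    (hocc : ∀ (Φ : Finset (List.Vector A S)) (a : Option (List.Vector A S))
        (b : List.Vector A S) (f : (Option A → ℚ) →ₗ[ℚ] ℚ),
        (∀ x ∈ F, ∀ i j, Occ S L Φ a b x i j → f (vec x i j) = 0) →
        ∀ x i j, Occ S L Φ a b x i j → f (vec x i j) = 0)
    {x : List A} (hx : x ∈ L) {i : ℕ} (hi : i + S ≤ x.length) :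
    ∃ z ∈ F, ∃ k, k + S ≤ z.length ∧ win S z k = win S x i ∧ (i = 0 → k = 0) := by
  classical
  by_contra hno
  push Not at hno
  have ho : Occ S L (if i = 0 then ∅ else Finset.univ) none ⟨win S x i, win_length hi⟩ x 0 i := by
    refine ⟨hx, hi, rfl, Or.inl ⟨rfl, rfl, fun k hk => ?_⟩⟩
    rw [if_neg (by omega)]
    exact ⟨⟨win S x k, win_length (by omega)⟩, Finset.mem_univ _, rfl⟩
  have h1 := hocc _ none _ (LinearMap.proj none) (by
    intro z hz i' j' ho'
    exfalso
    obtain ⟨-, hj', hw', h3⟩ := ho'
    obtain ⟨h4, h5⟩ := hno z hz j' hj' hw'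
    rcases h3 with ⟨-, hi0, h6⟩ | ⟨w, hw, -⟩
    · obtain ⟨c, hc, -⟩ := h6 0 (by omega)
      rw [if_pos h4] at hc
      exact absurd hc (by simp)
    · exact absurd hw (by simp)) x 0 i ho
  simp [vec] at h1

end main

end H33.BP
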